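import Pool.Agent.K3h88.VR.Stm

set_option autoImplicit false

/-! Project VR, brick PIG: the pigeonhole principle on the colours. -/

namespace Pool.Agent.K3h99.VR

open Pool.Agent.K3h88.VR Filter

theorem t_PIG : S_PIG := by
  intro R s r C c L hsr hC hL hlt
  by_contra hno
  have hstep : ∀ j : ℕ, s < j → j ≤ r →
      ∀ᶠ d : ℕ in atTop, (R j d : ℝ) < (R (j - 1) d : ℝ) + c * d := by
    intro j h1 h2
    have h3 : ¬ ∃ᶠ d : ℕ in atTop, (R (j - 1) d : ℝ) + c * d ≤ R j d :=
      fun h => hno ⟨j, h1, h2, h⟩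
    rw [not_frequently] at h3
    filter_upwards [h3] with d hd
    exact not_le.1 hd
  have hind : ∀ j : ℕ, s ≤ j → j ≤ r →
      ∀ᶠ d : ℕ in atTop, (R j d : ℝ) ≤ (R s d : ℝ) + ((j : ℝ) - s) * c * d := by
    intro j hj
    induction j, hj using Nat.le_induction with
    | base =>
      intro _
      exact Eventually.of_forall fun d => by simp
    | succ k hk ih =>
      intro hkr
      filter_upwards [ih (by omega), hstep (k + 1) (by omega) hkr] with d h1 h2
      rw [Nat.add_sub_cancel] at h2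
      have h3 : (((k + 1 : ℕ) : ℝ) - s) * c * d = ((k : ℝ) - s) * c * d + c * d := by
        push_cast
        ring
      rw [h3]
      linarith
  have hε : 0 < (L - (C + ((r : ℝ) - s) * c)) / 2 := by linarith
  have hev := ((hind r hsr.le le_rfl).and (hL _ hε)).and (eventually_ge_atTop 1)
  obtain ⟨d, hd1, ⟨hd2, hd3⟩, hd4⟩ := (hC.and_eventually hev).exists
  have hd : (1 : ℝ) ≤ d := by exact_mod_cast hd4
  have h5 : (L - (L - (C + ((r : ℝ) - s) * c)) / 2) * d ≤ (C + ((r : ℝ) - s) * c) * d := by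
    calc (L - (L - (C + ((r : ℝ) - s) * c)) / 2) * d ≤ (R r d : ℝ) := hd3
      _ ≤ (R s d : ℝ) + ((r : ℝ) - s) * c * d := hd2
      _ ≤ C * d + ((r : ℝ) - s) * c * d := by linarith
      _ = (C + ((r : ℝ) - s) * c) * d := by ring
  have h6 := le_of_mul_le_mul_right h5 (by linarith : (0 : ℝ) < d)
  linarith

end Pool.Agent.K3h99.VR
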